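import Mathlib

set_option autoImplicit false

namespace Pool.Agent.Results.MP_9d555c_an.Small

open Set MeasureTheory Filter Topology Metric
open scoped ENNReal NNReal

abbrev E (n : ℕ) := EuclideanSpace ℝ (Fin n)

/-- The kernel `Ω(z/|z|) / |z|^n`. -/
noncomputable def ker {n : ℕ} (Ω : E n → ℂ) (z : E n) : ℂ := Ω (‖z‖⁻¹ • z) / (‖z‖ ^ n : ℝ)

/-- `K g (x) = lim_{ε → 0+} ∫_{|x-y|>ε} ker (x-y) g(y) dy`. -/
noncomputable def K {n : ℕ} (Ω : E n → ℂ) (g : E n → ℂ) (x : E n) : ℂ :=
  limUnder (𝓝[>] (0 : ℝ)) fun ε => ∫ y in {y | ε < ‖x - y‖}, ker Ω (x - y) * g y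

/-- `‖(K - K_β) f‖₂ ≤ δ ‖f‖₂` for bounded compactly supported `f` with `e^β f` bounded. -/
def Close {n : ℕ} (Ω : E n → ℂ) (β : E n → ℝ) (δ : ℝ) : Prop :=
  ∀ f : E n → ℂ, Measurable f → HasCompactSupport f →
    (∃ R, ∀ x, ‖f x‖ ≤ R ∧ ‖(Real.exp (β x) : ℂ) * f x‖ ≤ R) →
    eLpNorm (fun x => K Ω f x - Real.exp (-β x) * K Ω (fun y => Real.exp (β y) * f y) x) 2 volume
      ≤ ENNReal.ofReal δ * eLpNorm f 2 volume

/-- The cube with corner `a` and side `l`. -/
def cube {n : ℕ} (a : E n) (l : ℝ) : Set (E n) := {x | ∀ i, x i ∈ Icc (a i) (a i + l)}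

section core
variable {X : Type} [MeasurableSpace X] {μ : Measure X} {β : X → ℝ}

def Bil (μ : Measure X) (β : X → ℝ) (P P' : Set X) (D : ℝ≥0∞) : Prop :=
  ∀ (A F : Set X) (φ ψ : X → ℝ≥0∞), MeasurableSet A → MeasurableSet F → A ⊆ P → F ⊆ P' →
    Measurable φ → Measurable ψ →
    ((∀ x ∈ F, ∀ y ∈ A, β x ≤ β y) ∨ ∀ x ∈ F, ∀ y ∈ A, β y ≤ β x) →
    (∀ x ∈ F, ∀ y ∈ A, φ x * ψ y ≤ ENNReal.ofReal |1 - Real.exp (β y - β x)|) →
    (∫⁻ x in F, φ x ∂μ) * ∫⁻ y in A, ψ y ∂μ ≤ D

lemma big {Q : Set X} (h0 : μ Q ≠ 0) (h1 : μ Q ≠ ∞) (β : X → ℝ) {s : ℝ} (hs : 0 < s) :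
    ∃ k : ℕ, μ Q / 2 ≤ μ (Q ∩ {x | β x ≤ k * s}) := by
  by_contra! h
  have : Q = ⋃ k : ℕ, Q ∩ {x | β x ≤ k * s} := by
    ext x
    simp only [mem_iUnion, mem_inter_iff, mem_setOf_eq, exists_and_left, iff_self_and]
    exact fun _ => (exists_nat_ge (β x / s)).imp fun k => (div_le_iff₀ hs).1
  have m : Monotone fun k : ℕ => Q ∩ {x | β x ≤ k * s} := fun a b hab x hx =>
    ⟨hx.1, (show β x ≤ a * s from hx.2).trans (show _ ≤ b * s by gcongr)⟩
  have := congrArg μ this
  rw [m.measure_iUnion] at this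
  exact (ENNReal.half_lt_self h0 h1).not_ge (this.trans_le (iSup_le fun k => (h k).le))

lemma med {Q : Set X} (h0 : μ Q ≠ 0) (h1 : μ Q ≠ ∞) (β : X → ℝ) {s : ℝ} (hs : 0 < s) :
    ∃ m, μ Q / 2 ≤ μ (Q ∩ {x | β x ≤ m + s}) ∧ μ Q / 2 ≤ μ (Q ∩ {x | m ≤ β x}) := by
  by_contra! h
  have nb : ∀ m, μ (Q ∩ {x | β x ≤ m}) < μ Q / 2 → μ Q / 2 ≤ μ (Q ∩ {x | m ≤ β x}) := by
    intro m a
    by_contra! b
    refine (ENNReal.add_lt_add a b).not_ge ?_
    rw [ENNReal.add_halves]
    exact (measure_mono fun x hx => (le_total (β x) m).imp (fun c => ⟨hx, c⟩) fun c => ⟨hx, c⟩).trans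
      (measure_union_le _ _)
  rcases lt_or_ge (μ (Q ∩ {x | β x ≤ 0})) (μ Q / 2) with a | a
  · obtain ⟨k, hk⟩ := big h0 h1 β hs
    refine hk.not_gt ?_
    clear hk
    induction k with
    | zero => simpa using a
    | succ k ih =>
      by_contra! b
      exact (h (k * s) (by simpa [add_mul] using b)).not_ge (nb _ ih)
  · obtain ⟨k, hk⟩ := big h0 h1 (fun x => -β x) hs
    have : ∀ k : ℕ, μ Q / 2 ≤ μ (Q ∩ {x | β x ≤ -(k * s)}) := fun k => by
      induction k with
      | zero => simpa using a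
      | succ k ih =>
        by_contra! b
        exact (h _ (by simpa [add_mul] using ih)).not_ge (nb _ b)
    refine (h (-(k * s)) ((this k).trans (measure_mono fun x hx => ⟨hx.1, ?_⟩))).not_ge ?_
    · exact (show β x ≤ _ from hx.2).trans (le_add_of_nonneg_right hs.le)
    · simpa only [neg_le] using hk

lemma core (hβ : Measurable β) {Q P P' : Set X} (mQ : MeasurableSet Q) (mP : MeasurableSet P)
    (mP' : MeasurableSet P') (h0 : μ Q ≠ 0) (h1 : μ Q ≠ ∞) (eP : μ P = μ Q) (eP' : μ P' = μ Q)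
    {ρ s : ℝ} (hρ : 0 ≤ ρ) (hs : 0 < s) (hρs : 4 * ρ < 1 - Real.exp (-s))
    (B1 : Bil μ β Q P' (ENNReal.ofReal ρ * μ Q * μ Q))
    (B2 : Bil μ β P Q (ENNReal.ofReal ρ * μ Q * μ Q)) :
    ∃ m, ∫⁻ x in Q, ENNReal.ofReal |β x - m| ∂μ ≤ ENNReal.ofReal (4 * ρ + 4 * s) * μ Q := by
  obtain ⟨m1, a1, b1⟩ := med (eP' ▸ h0) (eP' ▸ h1) β hs
  obtain ⟨m2, a2, b2⟩ := med (eP ▸ h0) (eP ▸ h1) β hs
  rw [eP'] at a1 b1
  rw [eP] at a2 b2
  have ml : ∀ {S} t, MeasurableSet S → MeasurableSet (S ∩ {x | β x ≤ t}) := fun t h =>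
    h.inter (measurableSet_le hβ measurable_const)
  have mr : ∀ {S} t, MeasurableSet S → MeasurableSet (S ∩ {x | t ≤ β x}) := fun t h =>
    h.inter (measurableSet_le measurable_const hβ)
  have can : ∀ {I J : ℝ≥0∞}, μ Q / 2 ≤ J → J * I ≤ ENNReal.ofReal ρ * μ Q * μ Q →
      I ≤ ENNReal.ofReal (2 * ρ) * μ Q := fun {I J} a b => by
    refine (ENNReal.mul_le_mul_iff_right (ENNReal.half_pos h0).ne'
      (ENNReal.div_ne_top h1 two_ne_zero)).1 (((mul_le_mul_left a _).trans b).trans_eq ?_)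
    rw [ENNReal.ofReal_mul zero_le_two, ENNReal.ofReal_ofNat, ← mul_assoc, ← mul_assoc,
      ENNReal.div_mul_cancel two_ne_zero (by simp)]
    ring
  have e1 : ∀ {u v : ℝ}, u ≤ v → ENNReal.ofReal u ≤ ENNReal.ofReal |1 - Real.exp v| :=
    fun {u v} h => ENNReal.ofReal_le_ofReal (by
      linarith [neg_le_abs (1 - Real.exp v), Real.add_one_le_exp v])
  have e2 : ∀ {v : ℝ}, v ≤ -s →
      ENNReal.ofReal (1 - Real.exp (-s)) ≤ ENNReal.ofReal |1 - Real.exp v| :=
    fun {v} h => ENNReal.ofReal_le_ofReal (by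
      linarith [le_abs_self (1 - Real.exp v), Real.exp_le_exp.2 h])
  have c1 := can (by simpa using a1) (B1 _ _ 1 (fun y => ENNReal.ofReal (β y - (m1 + s)))
    (mr (m1 + s) mQ) (ml (m1 + s) mP') inter_subset_left inter_subset_left measurable_const
    (by fun_prop) (.inl fun x hx y hy => le_trans hx.2 hy.2)
    fun x hx y hy => (one_mul _).trans_le (e1 (by linarith [show β x ≤ _ from hx.2])))
  have c2 := can (by simpa using b2) ((mul_comm _ _).trans_le (B2 _ _
    (fun y => ENNReal.ofReal (m2 - β y)) 1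
    (mr m2 mP) (ml m2 mQ) inter_subset_left inter_subset_left (by fun_prop)
    measurable_const (.inl fun x hx y hy => le_trans hx.2 hy.2)
    fun x hx y hy => (mul_one _).trans_le (e1 (by linarith [show _ ≤ β y from hy.2]))))
  have c3 := can (by simpa using b1) (B1 _ _ 1 (fun _ => ENNReal.ofReal (1 - Real.exp (-s)))
    (ml (m1 - s) mQ) (mr m1 mP') inter_subset_left inter_subset_left measurable_const
    measurable_const (.inr fun x hx y hy => by
      linarith [show _ ≤ β x from hx.2, show β y ≤ _ from hy.2])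
    fun x hx y hy => (one_mul _).trans_le (e2 (by
      linarith [show _ ≤ β x from hx.2, show β y ≤ _ from hy.2])))
  have c4 := can (by simpa using a2) ((mul_comm _ _).trans_le (B2 _ _
    (fun _ => ENNReal.ofReal (1 - Real.exp (-s))) 1
    (ml (m2 + s) mP) (mr (m2 + 2 * s) mQ) inter_subset_left inter_subset_left measurable_const
    measurable_const (.inr fun x hx y hy => by
      linarith [show _ ≤ β x from hx.2, show β y ≤ _ from hy.2])
    fun x hx y hy => (mul_one _).trans_le (e2 (by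
      linarith [show _ ≤ β x from hx.2, show β y ≤ _ from hy.2]))))
  have hm : m1 ≤ m2 + 3 * s := by
    by_contra! hm
    have := add_le_add c3 c4
    simp only [setLIntegral_const] at this
    rw [← mul_add, ← add_mul, ← ENNReal.ofReal_add (by positivity) (by positivity)] at this
    have := (mul_le_mul_right ((measure_mono fun x hx => (le_total (β x) (m1 - s)).imp
      (fun c => ⟨hx, c⟩) fun c => ⟨hx, le_trans (by linarith) c⟩).trans (measure_union_le _ _)) _).trans
      this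
    rw [ENNReal.mul_le_mul_iff_left h0 h1, ENNReal.ofReal_le_ofReal_iff (by positivity)] at this
    linarith
  refine ⟨m2, ?_⟩
  rw [inter_comm, ← Measure.restrict_restrict (by simpa using mr _ .univ), ← lintegral_indicator
    (by simpa using mr _ .univ)] at c1
  rw [inter_comm, ← Measure.restrict_restrict (by simpa using ml _ .univ), ← lintegral_indicator
    (by simpa using ml _ .univ)] at c2
  have := add_le_add (add_le_add c1 c2) (setLIntegral_const (μ := μ) Q (ENNReal.ofReal (4 * s))).le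
  rw [← lintegral_add_left (.indicator (by fun_prop) (by simpa using mr _ .univ)),
    ← lintegral_add_right _ measurable_const, ← add_mul, ← add_mul,
    ← ENNReal.ofReal_add (by positivity) (by positivity),
    ← ENNReal.ofReal_add (by positivity) (by positivity)] at this
  refine (lintegral_mono fun x => ?_).trans (this.trans_eq (by ring_nf))
  by_cases p : m1 + s ≤ β x <;> by_cases q : β x ≤ m2 <;>
    simp only [indicator, mem_setOf_eq, p, q, if_true, if_false, zero_add, add_zero] <;>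
    repeat rw [← ENNReal.ofReal_add (by linarith) (by linarith)]
  all_goals exact ENNReal.ofReal_le_ofReal (abs_le.2 ⟨by linarith, by linarith⟩)

end core

variable {n : ℕ} {Ω : E n → ℂ}

lemma kc (hΩ : ContinuousOn Ω (sphere 0 1)) : ContinuousOn (ker Ω) {0}ᶜ := by
  refine (hΩ.comp (f := fun z : E n => ‖z‖⁻¹ • z) ?_ fun z hz => ?_).div (by fun_prop) fun z hz => ?_
  · exact (continuousOn_id.norm.inv₀ fun z hz => norm_ne_zero_iff.2 hz).smul continuousOn_id
  · simpa using norm_smul_inv_norm (𝕜 := ℝ) hz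
  · simpa using fun h : z = 0 => absurd h hz

lemma loc (hΩ : ContinuousOn Ω (sphere 0 1)) {θ : E n} (hθ : ‖θ‖ = 1) (h0 : Ω θ ≠ 0) :
    ∃ η, 0 < η ∧ ∀ l, 0 < l → ∀ z, ‖z - l • θ‖ ≤ l * η →
      l / 2 ≤ ‖z‖ ∧ ‖(l ^ n : ℝ) * ker Ω z - Ω θ‖ ≤ ‖Ω θ‖ / 2 := by
  have t0 : θ ≠ 0 := norm_ne_zero_iff.1 (by simp [hθ])
  obtain ⟨η, e0, he⟩ := Metric.continuousAt_iff.1 ((kc hΩ).continuousAt
    (isOpen_compl_singleton.mem_nhds t0)) _ (half_pos (norm_pos_iff.2 h0))
  refine ⟨min (η / 2) (1 / 2), by positivity, fun l l0 z hz => ?_⟩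
  have a := norm_sub_norm_le (l • θ) z
  rw [norm_sub_rev, norm_smul, hθ, Real.norm_of_nonneg l0.le] at a
  have b : l / 2 ≤ ‖z‖ := by nlinarith [min_le_right (η / 2) (1 / 2)]
  have z0 : 0 < ‖z‖ := by linarith
  have := he (x := l⁻¹ • z) (by
    rw [dist_eq_norm, show l⁻¹ • z - θ = l⁻¹ • (z - l • θ) by
      rw [smul_sub, inv_smul_smul₀ l0.ne'], norm_smul, norm_inv, Real.norm_of_nonneg l0.le,
      inv_mul_lt_iff₀ l0]
    nlinarith [min_le_left (η / 2) (1 / 2)])
  refine ⟨b, le_of_eq_of_le ?_ this.le⟩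
  rw [dist_eq_norm]
  congr 2
  · simp only [ker, norm_smul, norm_inv, Real.norm_of_nonneg l0.le, smul_smul]
    rw [show (l⁻¹ * ‖z‖)⁻¹ * l⁻¹ = ‖z‖⁻¹ by field_simp]
    have : (l : ℂ) ≠ 0 := by exact_mod_cast l0.ne'
    push_cast
    rw [mul_pow, inv_pow]
    field_simp
  · simp [ker, hθ]

lemma Kind {A : Set (E n)} (hA : MeasurableSet A) (g : E n → ℂ) {x : E n} {r : ℝ} (hr : 0 < r)
    (h : ∀ y ∈ A, r ≤ ‖x - y‖) : K Ω (A.indicator g) x = ∫ y in A, ker Ω (x - y) * g y := by
  refine Tendsto.limUnder_eq (tendsto_const_nhds.congr' ?_)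
  filter_upwards [Ioo_mem_nhdsGT hr] with ε hε
  simp only [← indicator_mul_right A (fun y => ker Ω (x - y)) g]
  rw [setIntegral_indicator hA, (inter_eq_right (s := {y | ε < ‖x - y‖})).2 fun y hy => hε.2.trans_le (h y hy)]

lemma bil (hΩ : ContinuousOn Ω (sphere 0 1)) {β : E n → ℝ} (hβ : Measurable β) {δ l : ℝ} {c : ℂ}
    (c0 : c ≠ 0) (l0 : 0 < l) (hC : Close Ω β δ) {P P' : Set (E n)} (hP : IsCompact P)
    (hV : volume P' = volume P)
    (hk : ∀ x ∈ P', ∀ y ∈ P, l / 2 ≤ ‖x - y‖ ∧ ‖(l ^ n : ℝ) * ker Ω (x - y) - c‖ ≤ ‖c‖ / 2) :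
    Bil volume β P P' (ENNReal.ofReal (2 * l ^ n / ‖c‖) * ENNReal.ofReal δ * volume P) := by
  intro A F φ ψ mA mF sA sF mφ mψ sg bd
  wlog hR : ∃ R, ∀ y ∈ A, β y ≤ R generalizing A with H
  · have : A = ⋃ k : ℕ, A ∩ {y | β y ≤ k} := by
      ext x
      simp only [mem_iUnion, mem_inter_iff, mem_setOf_eq, exists_and_left, iff_self_and]
      exact fun _ => exists_nat_ge _
    have m : Monotone fun k : ℕ => A ∩ {y | β y ≤ k} := fun a b hab x hx =>
      ⟨hx.1, (show β x ≤ a from hx.2).trans (show _ ≤ (b : ℝ) by gcongr)⟩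
    rw [this, setLIntegral_iUnion_of_directed _ m.directed_le, ENNReal.mul_iSup]
    exact iSup_le fun k => H _ (mA.inter (measurableSet_le hβ measurable_const))
      (inter_subset_left.trans sA)
      (sg.imp (fun h x hx y hy => h x hx y hy.1) fun h x hx y hy => h x hx y hy.1)
      (fun x hx y hy => bd x hx y hy.1) ⟨k, fun y hy => hy.2⟩
  obtain ⟨R, hR⟩ := hR
  have cn := norm_pos_iff.2 c0
  have fA : volume A < ∞ := (measure_mono sA).trans_lt hP.measure_lt_top
  have H := hC (A.indicator fun _ => 1) (measurable_const.indicator mA)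
    (.intro hP fun x hx => indicator_of_notMem (fun h => hx (sA h)) _)
    ⟨max 1 (Real.exp R), fun x => by
      by_cases hx : x ∈ A
      · simp [hx, Complex.norm_exp, hR x hx]
      · simp [hx]⟩
  simp only [← indicator_mul_right A (fun y => (Real.exp (β y) : ℂ)) fun _ => 1] at H
  have pt : ∀ x ∈ F, ‖φ x * ∫⁻ y in A, ψ y‖ₑ ≤ (2 * l ^ n / ‖c‖).toNNReal *
      ‖K Ω (A.indicator fun _ => 1) x - Real.exp (-β x) *
        K Ω (A.indicator fun y => Real.exp (β y) * 1) x‖ₑ := fun x hx => by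
    have hd := fun y hy => hk x (sF hx) y (sA hy)
    have ik : ∀ {g : E n → ℝ}, Measurable g → (∃ M, ∀ y ∈ A, |g y| ≤ M) → IntegrableOn g A ∧
        IntegrableOn (fun y => ker Ω (x - y) * g y) A := fun {g} mg ⟨M, hM⟩ => by
      have ig : IntegrableOn g A := Measure.integrableOn_of_bounded fA.ne mg.aestronglyMeasurable
        (ae_restrict_of_forall_mem mA hM)
      refine ⟨ig, ig.ofReal.bdd_mul (c := 2 * ‖c‖ / l ^ n) (((kc hΩ).comp (by fun_prop)
        fun y hy => norm_pos_iff.1 ((half_pos l0).trans_le (hd y hy).1)).aestronglyMeasurable mA)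
        (ae_restrict_of_forall_mem mA fun y hy => ?_)⟩
      have := norm_sub_norm_le ((l ^ n : ℝ) * ker Ω (x - y)) c
      rw [norm_mul, Complex.norm_of_nonneg (by positivity)] at this
      rw [le_div_iff₀ (by positivity)]
      linarith [(hd y hy).2]
    have i1 := ik (g := fun _ => 1) measurable_const ⟨1, by simp⟩
    have i2 := ik (g := fun y => Real.exp (β y)) (by fun_prop) ⟨Real.exp R, fun y hy => by
      simpa using hR y hy⟩
    obtain ⟨i3, i4⟩ := ik (g := fun y => |1 - Real.exp (β y - β x)|) (by fun_prop)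
      ⟨1 + Real.exp (R - β x), fun y hy => by
        have := Real.exp_le_exp.2 (sub_le_sub_right (hR y hy) (β x))
        rw [abs_abs, abs_le]
        constructor <;> linarith [Real.exp_pos (β y - β x)]⟩
    have nm : ‖∫ y in A, ker Ω (x - y) * (1 - Real.exp (β y - β x) : ℝ)‖ =
        ‖∫ y in A, ker Ω (x - y) * (|1 - Real.exp (β y - β x)| : ℝ)‖ := by
      rcases sg with sg | sg
      · rw [← norm_neg, ← integral_neg]
        refine congrArg _ (setIntegral_congr_fun mA fun y hy => ?_)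
        rw [abs_of_nonpos (by simpa using sg x hx y hy), Complex.ofReal_neg, mul_neg]
      · refine congrArg _ (setIntegral_congr_fun mA fun y hy => ?_)
        rw [abs_of_nonneg (by simpa using sg x hx y hy)]
    rw [Kind mA _ (half_pos l0) fun y hy => (hd y hy).1, Kind mA _ (half_pos l0) fun y hy => (hd y hy).1,
      ← integral_const_mul, ← integral_sub (by simpa [IntegrableOn] using i1.2)
      (by simpa using i2.2.const_mul (Real.exp (-β x) : ℂ)), enorm_eq_self,
      ← lintegral_const_mul _ mψ, ← ofReal_norm, show (fun y => ker Ω (x - y) * 1 - Real.exp (-β x) *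
        (ker Ω (x - y) * (Real.exp (β y) * 1))) =
        fun y => ker Ω (x - y) * (1 - Real.exp (β y - β x) : ℝ) from funext fun y => by
          rw [sub_eq_add_neg (β y), Real.exp_add]
          push_cast
          ring, nm]
    refine (setLIntegral_mono' mA fun y hy => bd x hx y hy).trans ?_
    rw [← ofReal_integral_eq_lintegral_ofReal i3 (ae_of_all _ fun _ => abs_nonneg _)]
    refine le_of_le_of_eq (ENNReal.ofReal_le_ofReal ?_) (ENNReal.ofReal_mul (by positivity))
    have j := norm_integral_le_of_norm_le (i3.const_mul (‖c‖ / 2)) (f := fun y => (l ^ n : ℝ) *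
      (ker Ω (x - y) * (|1 - Real.exp (β y - β x)| : ℝ)) - c * (|1 - Real.exp (β y - β x)| : ℝ))
      (ae_restrict_of_forall_mem mA fun y hy => by
        rw [← mul_assoc, ← sub_mul, norm_mul, Complex.norm_of_nonneg (abs_nonneg _)]
        exact mul_le_mul_of_nonneg_right (hd y hy).2 (abs_nonneg _))
    have i5 : IntegrableOn (fun y => ((|1 - Real.exp (β y - β x)| : ℝ) : ℂ)) A := i3.ofReal
    rw [integral_sub (i4.const_mul _) (i5.const_mul c), integral_const_mul,
      integral_const_mul, integral_const_mul, integral_complex_ofReal, norm_sub_rev] at j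
    have := (norm_sub_norm_le _ _).trans j
    rw [norm_mul, norm_mul, Complex.norm_of_nonneg (integral_nonneg fun _ => abs_nonneg _),
      Complex.norm_of_nonneg (by positivity)] at this
    rw [div_mul_eq_mul_div, le_div_iff₀ cn]
    linarith
  have h1 := eLpNorm_le_eLpNorm_mul_rpow_measure_univ (μ := volume.restrict F) one_le_two
    (mφ.mul_const (∫⁻ y in A, ψ y)).aestronglyMeasurable
  have h2 := (eLpNorm_le_mul_eLpNorm_of_ae_le_mul' (ae_restrict_of_forall_mem mF pt) 2).trans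
    (mul_le_mul_right ((eLpNorm_mono_measure _ Measure.restrict_le_self).trans H) _)
  rw [eLpNorm_one_eq_lintegral_enorm] at h1
  rw [eLpNorm_indicator_const mA (by simp) (by simp)] at h2
  simp only [enorm_eq_self, lintegral_mul_const _ mφ, Measure.restrict_apply_univ] at h1
  refine h1.trans ((mul_le_mul_left h2 _).trans ?_)
  have a1 := measure_mono (μ := volume) sA
  have a2 := (measure_mono (μ := volume) sF).trans_eq hV
  calc _ ≤ (2 * l ^ n / ‖c‖).toNNReal * (ENNReal.ofReal δ * (‖(1 : ℂ)‖ₑ * volume P ^ (1 / 2 : ℝ))) *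
        volume P ^ (1 / 2 : ℝ) := by
        norm_num
        gcongr
    _ = _ := by
        rw [enorm_one, one_mul, mul_assoc, mul_assoc, ← ENNReal.rpow_add_of_nonneg _ _ (by norm_num)
          (by norm_num), mul_assoc]
        norm_num [ENNReal.ofReal]

lemma mcube (a : E n) (l : ℝ) : cube a l = WithLp.ofLp ⁻¹' Icc a.ofLp fun i => a i + l := by
  ext x
  simp [cube, Pi.le_def, forall_and]

lemma ccube (a : E n) (l : ℝ) : IsCompact (cube a l) := by
  rw [mcube]
  exact (PiLp.homeomorph 2 fun _ => ℝ).isCompact_preimage.2 isCompact_Icc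

lemma vcube (a : E n) {l : ℝ} (hl : 0 < l) : volume (cube a l) = ENNReal.ofReal (l ^ n) := by
  rw [mcube, (PiLp.volume_preserving_ofLp _).measure_preimage measurableSet_Icc.nullMeasurableSet,
    Real.volume_Icc_pi]
  simp [ENNReal.ofReal_pow hl.le]

lemma dcube {a v x y : E n} {l : ℝ} (hl : 0 < l) (hx : x ∈ cube (a + v) l) (hy : y ∈ cube a l) :
    ‖x - y - v‖ ≤ (n + 1) * l := by
  rw [EuclideanSpace.norm_eq, Real.sqrt_le_left (by positivity)]
  refine (Finset.sum_le_card_nsmul _ _ (l ^ 2) fun i _ => ?_).trans ?_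
  · have a1 := hx i
    have a2 := hy i
    simp only [PiLp.add_apply, PiLp.sub_apply, mem_Icc, Real.norm_eq_abs, sq_abs] at *
    exact sq_le_sq' (by linarith) (by linarith)
  · simp only [Finset.card_univ, Fintype.card_fin, nsmul_eq_mul, mul_pow]
    gcongr
    nlinarith [n.cast_nonneg (α := ℝ)]

theorem result (n : ℕ) (Ω : E n → ℂ) (hΩ : ContinuousOn Ω (sphere 0 1))
    (h0 : ∃ θ ∈ sphere (0 : E n) 1, Ω θ ≠ 0) (ε : ℝ) (hε : 0 < ε) :
    ∃ δ : ℝ, 0 < δ ∧ ∀ β : E n → ℝ, Measurable β → LocallyIntegrable β → Close Ω β δ →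
      ∀ (a : E n) (l : ℝ), 0 < l → ⨍ x in cube a l, |β x - ⨍ y in cube a l, β y| ≤ ε := by
  obtain ⟨θ, hθ, h0⟩ := h0
  obtain ⟨η, e0, he⟩ := loc hΩ (by simpa using hθ) h0
  have cn := norm_pos_iff.2 h0
  set s := ε / 16
  have s0 : 0 < s := by positivity
  have s1 : 0 < 1 - Real.exp (-s) := by simpa using s0
  set ρ := min s ((1 - Real.exp (-s)) / 8)
  have r0 : 0 < ρ := by positivity
  refine ⟨ρ / (2 * ((n + 1) / η) ^ n / ‖Ω θ‖), by positivity, fun β mβ iβ hC a l l0 => ?_⟩
  set L := (n + 1) * l / η with hL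
  have L0 : 0 < L := by positivity
  have B : ∀ b, Bil volume β (cube b l) (cube (b + L • θ) l)
      (ENNReal.ofReal ρ * volume (cube a l) * volume (cube a l)) := fun b => by
    convert bil hΩ mβ h0 L0 hC (ccube b l) ((vcube _ l0).trans (vcube _ l0).symm) fun x hx y hy =>
      he L L0 _ ((dcube l0 hx hy).trans_eq (div_mul_cancel₀ _ e0.ne').symm) using 1
    rw [vcube _ l0, vcube _ l0, ← ENNReal.ofReal_mul r0.le, ← ENNReal.ofReal_mul (by positivity),
      ← ENNReal.ofReal_mul (by positivity), ← ENNReal.ofReal_mul (by positivity), hL,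
      mul_div_right_comm _ l, mul_pow]
    congr 2
    field_simp
  have B2 := B (a - L • θ)
  rw [sub_add_cancel] at B2
  have v0 : volume (cube a l) ≠ 0 := by simp [vcube _ l0, l0]
  have v1 := (ccube a l).measure_lt_top (μ := volume)
  obtain ⟨m, hm⟩ := core mβ (ccube a l).measurableSet (ccube _ l).measurableSet
    (ccube _ l).measurableSet v0 v1.ne ((vcube _ l0).trans (vcube _ l0).symm)
    ((vcube _ l0).trans (vcube _ l0).symm) r0.le s0
    (by linarith [show ρ ≤ _ from min_le_right _ _]) (B a) B2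
  have i1 := iβ.integrableOn_isCompact (ccube a l)
  have ic : ∀ c : ℝ, IntegrableOn (fun _ => c) (cube a l) := fun c => integrableOn_const v1.ne
  have i2 : IntegrableOn (fun x => |β x - m|) (cube a l) := (i1.sub (ic m)).abs
  have p0 : 0 < volume.real (cube a l) := ENNReal.toReal_pos v0 v1.ne
  rw [← ofReal_integral_eq_lintegral_ofReal i2 (ae_of_all _ fun _ => abs_nonneg _),
    ← ENNReal.ofReal_toReal v1.ne, ← ENNReal.ofReal_mul (by positivity),
    ENNReal.ofReal_le_ofReal_iff (by positivity), ← measureReal_def] at hm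
  have hs : 4 * ρ + 4 * s ≤ ε / 2 := by linarith [show ρ ≤ s from min_le_left _ _, show s = ε / 16 from rfl]
  have h1 : |m - ⨍ y in cube a l, β y| ≤ ε / 2 := by
    have := abs_integral_le_integral_abs (μ := volume.restrict (cube a l)) (f := fun x => β x - m)
    rw [integral_sub i1 (ic m), setIntegral_const, ← measure_smul_setAverage _ v1.ne, smul_eq_mul,
      smul_eq_mul, ← mul_sub, abs_mul, abs_of_pos p0, abs_sub_comm] at this
    nlinarith
  rw [setAverage_eq, smul_eq_mul, inv_mul_le_iff₀ p0]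
  refine (integral_mono (i1.sub (ic _)).abs (i2.add (ic (ε / 2))) fun x =>
    (abs_sub_le _ m _).trans (add_le_add le_rfl h1)).trans ?_
  simp only [Pi.add_apply]
  rw [integral_add i2 (ic _), setIntegral_const, smul_eq_mul]
  nlinarith

end Pool.Agent.Results.MP_9d555c_an.Small
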